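import Mathlib

/-!
# MP_70ba79_ag, board `bo_modules`: module NB3, determinants
-/

set_option autoImplicit false

namespace Pool.Agent.H77.BO

section Abs

variable {K : Type} [Field K] {T : Type} [Fintype T] [DecidableEq T]

/-- reordering of the columns -/
def eJ : (T ⊕ Fin 2) ⊕ Fin 3 ≃ (T ⊕ Fin 3) ⊕ Fin 2 where
  toFun
    | Sum.inl (Sum.inl t) => Sum.inl (Sum.inl t)
    | Sum.inl (Sum.inr t) => Sum.inr t
    | Sum.inr t => Sum.inl (Sum.inr t)
  invFun
    | Sum.inl (Sum.inl t) => Sum.inl (Sum.inl t)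
    | Sum.inl (Sum.inr t) => Sum.inr t
    | Sum.inr t => Sum.inl (Sum.inr t)
  left_inv := by rintro ((a | a) | a) <;> rfl
  right_inv := by rintro ((a | a) | a) <;> rfl

/-- the determinant of a matrix with three new columns -/
theorem det_new (A B : Matrix ((T ⊕ Fin 3) ⊕ Fin 2) ((T ⊕ Fin 3) ⊕ Fin 2) K) (hA : A.det ≠ 0)
    (h1 : ∀ r c, A r (Sum.inl (Sum.inl c)) = B r (Sum.inl (Sum.inl c)))
    (h2 : ∀ r c, A r (Sum.inr c) = B r (Sum.inr c)) :
    B.det = A.det * (Matrix.of fun r t : Fin 3 =>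
      ∑ i, A⁻¹ (Sum.inl (Sum.inr r)) i * B i (Sum.inl (Sum.inr t))).det := by
  obtain ⟨N, hN⟩ : ∃ N, N = A⁻¹ * B := ⟨_, rfl⟩
  have hu : IsUnit A.det := isUnit_iff_ne_zero.2 hA
  have hB : B = A * N := by rw [hN, Matrix.mul_nonsing_inv_cancel_left _ _ hu]
  have hcol : ∀ c, (∀ r, A r c = B r c) → ∀ r,
      N r c = (1 : Matrix ((T ⊕ Fin 3) ⊕ Fin 2) ((T ⊕ Fin 3) ⊕ Fin 2) K) r c := by
    intro c hc r
    have h3 : (A⁻¹ * A) r c = (1 : Matrix ((T ⊕ Fin 3) ⊕ Fin 2) ((T ⊕ Fin 3) ⊕ Fin 2) K) r c := by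
      rw [Matrix.nonsing_inv_mul _ hu]
    rw [hN, ← h3, Matrix.mul_apply, Matrix.mul_apply]
    simp only [hc]
  have hdet : N.det = (Matrix.of fun r t : Fin 3 =>
      N (Sum.inl (Sum.inr r)) (Sum.inl (Sum.inr t))).det := by
    rw [← Matrix.det_submatrix_equiv_self eJ N]
    have h3 : N.submatrix eJ eJ = Matrix.fromBlocks 1
        (Matrix.of fun (c : T ⊕ Fin 2) (t : Fin 3) => N (eJ (Sum.inl c)) (Sum.inl (Sum.inr t))) 0
        (Matrix.of fun r t : Fin 3 => N (Sum.inl (Sum.inr r)) (Sum.inl (Sum.inr t))) := by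
      ext r c
      rw [Matrix.submatrix_apply]
      rcases c with (c | c) | c
      · have h4 := hcol (Sum.inl (Sum.inl c)) (fun r => h1 r c) (eJ r)
        rw [show eJ (Sum.inl (Sum.inl c) : (T ⊕ Fin 2) ⊕ Fin 3) = Sum.inl (Sum.inl c) from rfl,
          h4]
        rcases r with (r | r) | r
        · show (1 : Matrix ((T ⊕ Fin 3) ⊕ Fin 2) ((T ⊕ Fin 3) ⊕ Fin 2) K) (Sum.inl (Sum.inl r))
            (Sum.inl (Sum.inl c)) = (1 : Matrix (T ⊕ Fin 2) (T ⊕ Fin 2) K) (Sum.inl r)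
            (Sum.inl c)
          simp only [Matrix.one_apply, Sum.inl.injEq]
        · show (1 : Matrix ((T ⊕ Fin 3) ⊕ Fin 2) ((T ⊕ Fin 3) ⊕ Fin 2) K) (Sum.inr r)
            (Sum.inl (Sum.inl c)) = (1 : Matrix (T ⊕ Fin 2) (T ⊕ Fin 2) K) (Sum.inr r)
            (Sum.inl c)
          simp only [Matrix.one_apply, reduceCtorEq, if_false]
        · show (1 : Matrix ((T ⊕ Fin 3) ⊕ Fin 2) ((T ⊕ Fin 3) ⊕ Fin 2) K) (Sum.inl (Sum.inr r))
            (Sum.inl (Sum.inl c)) = 0
          simp only [Matrix.one_apply, reduceCtorEq, Sum.inl.injEq, if_false]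
      · have h4 := hcol (Sum.inr c) (fun r => h2 r c) (eJ r)
        rw [show eJ (Sum.inl (Sum.inr c) : (T ⊕ Fin 2) ⊕ Fin 3) = Sum.inr c from rfl, h4]
        rcases r with (r | r) | r
        · show (1 : Matrix ((T ⊕ Fin 3) ⊕ Fin 2) ((T ⊕ Fin 3) ⊕ Fin 2) K) (Sum.inl (Sum.inl r))
            (Sum.inr c) = (1 : Matrix (T ⊕ Fin 2) (T ⊕ Fin 2) K) (Sum.inl r) (Sum.inr c)
          simp only [Matrix.one_apply, reduceCtorEq, if_false]
        · show (1 : Matrix ((T ⊕ Fin 3) ⊕ Fin 2) ((T ⊕ Fin 3) ⊕ Fin 2) K) (Sum.inr r)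
            (Sum.inr c) = (1 : Matrix (T ⊕ Fin 2) (T ⊕ Fin 2) K) (Sum.inr r) (Sum.inr c)
          simp only [Matrix.one_apply, Sum.inr.injEq]
        · show (1 : Matrix ((T ⊕ Fin 3) ⊕ Fin 2) ((T ⊕ Fin 3) ⊕ Fin 2) K) (Sum.inl (Sum.inr r))
            (Sum.inr c) = 0
          simp only [Matrix.one_apply, reduceCtorEq, if_false]
      · rcases r with r | r
        · rfl
        · rfl
    rw [h3, Matrix.det_fromBlocks_zero₂₁, Matrix.det_one, one_mul]
  rw [hB, Matrix.det_mul, hdet]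
  congr 2
  ext r t
  rw [Matrix.of_apply, Matrix.of_apply, ← hB, hN, Matrix.mul_apply]

/-- the matrix with the old columns `C` and the new columns `G` -/
def colM {X : Type} (C : Matrix X (T ⊕ Fin 2) K) (G : Fin 3 → X → K) :
    Matrix X ((T ⊕ Fin 3) ⊕ Fin 2) K := Matrix.of fun r c => match c with
  | Sum.inl (Sum.inl t) => C r (Sum.inl t)
  | Sum.inl (Sum.inr t) => G t r
  | Sum.inr t => C r (Sum.inr t)

theorem abs_det {m s : ℕ} (e0 : (T ⊕ Fin 3) ⊕ Fin 2 ≃ Fin m ⊕ Fin (s + 1))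
    (C : Matrix (Fin m ⊕ Fin (s + 1)) (T ⊕ Fin 2) K)
    (hC : ∀ c, C (Sum.inr (Fin.last s)) c = 0) (u : Fin 2 → Fin m → K)
    (hli : ∀ (v : T ⊕ Fin 2 → K) (y : Fin 2 → K),
      (∀ r, C.mulVec v r + Sum.elim (fun i => y 0 * u 0 i + y 1 * u 1 i) (fun _ => 0) r = 0) →
      v = 0 ∧ y = 0) :
    ∃ (σ : K) (ν : Fin 2 → Fin m → K), σ ≠ 0 ∧
      (∀ b b', ∑ i, ν b i * u b' i = if b = b' then 1 else 0) ∧
      (∀ (b : Fin 2) (v : T ⊕ Fin 2 → K) (w : Fin m → K),
        (∀ r, C.mulVec v r = Sum.elim w (fun _ => 0) r) → ∑ i, ν b i * w i = 0) ∧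
      ∀ (ξ : Fin 3 → K) (W : Fin 3 → Fin m → K),
        ((colM C fun t => Sum.elim (W t) fun b => if Fin.last s = b then ξ t else 0).submatrix
          e0 id).det = σ * (Matrix.of fun t r : Fin 3 =>
            (![ξ t, ∑ i, ν 0 i * W t i, ∑ i, ν 1 i * W t i] : Fin 3 → K) r).det := by
  obtain ⟨G, hG⟩ : ∃ G : Fin 3 → Fin m ⊕ Fin (s + 1) → K, G =
    ![Pi.single (Sum.inr (Fin.last s)) 1, Sum.elim (u 0) fun _ => 0,
      Sum.elim (u 1) fun _ => 0] := ⟨_, rfl⟩
  obtain ⟨A, hA⟩ : ∃ A, A = (colM C G).submatrix e0 id := ⟨_, rfl⟩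
  have hmv : ∀ (v : (T ⊕ Fin 3) ⊕ Fin 2 → K) (r : Fin m ⊕ Fin (s + 1)),
      (colM C G).mulVec v r = C.mulVec (Sum.elim (fun t => v (Sum.inl (Sum.inl t)))
        fun t => v (Sum.inr t)) r + (G 0 r * v (Sum.inl (Sum.inr 0)) +
        G 1 r * v (Sum.inl (Sum.inr 1)) + G 2 r * v (Sum.inl (Sum.inr 2))) := by
    intro v r
    rw [Matrix.mulVec, Matrix.mulVec, dotProduct, dotProduct, Fintype.sum_sum_type,
      Fintype.sum_sum_type, Fintype.sum_sum_type, Fin.sum_univ_three]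
    simp only [colM, Matrix.of_apply, Sum.elim_inl, Sum.elim_inr]
    ring
  have hdet : A.det ≠ 0 := by
    intro h0
    obtain ⟨v, hv0, hv⟩ := Matrix.exists_mulVec_eq_zero_iff.2 h0
    apply hv0
    have hr : ∀ r, (colM C G).mulVec v r = 0 := by
      intro r
      have h1 := congrFun hv (e0.symm r)
      rw [hA] at h1
      have h2 : ((colM C G).submatrix e0 id).mulVec v (e0.symm r) = (colM C G).mulVec v r := by
        rw [Matrix.mulVec, Matrix.mulVec, dotProduct, dotProduct]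
        simp only [Matrix.submatrix_apply, Equiv.apply_symm_apply, id]
      rw [h2] at h1
      exact h1
    have hc0 : v (Sum.inl (Sum.inr 0)) = 0 := by
      have h1 := hr (Sum.inr (Fin.last s))
      rw [hmv, Matrix.mulVec, dotProduct] at h1
      simp only [hC, hG, Matrix.cons_val_zero, Matrix.cons_val_one, Matrix.cons_val,
        Pi.single_eq_same, Sum.elim_inr, zero_mul, Finset.sum_const_zero, zero_add, one_mul,
        add_zero] at h1
      exact h1
    obtain ⟨h1, h2⟩ := hli (Sum.elim (fun t => v (Sum.inl (Sum.inl t))) fun t => v (Sum.inr t))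
      ![v (Sum.inl (Sum.inr 1)), v (Sum.inl (Sum.inr 2))] (by
        intro r
        have h1 := hr r
        rw [hmv, hc0, mul_zero, zero_add] at h1
        refine Eq.trans ?_ h1
        congr 1
        simp only [hG, Matrix.cons_val_zero, Matrix.cons_val_one, Matrix.cons_val]
        rcases r with i | b
        · simp only [Sum.elim_inl]
          ring
        · simp only [Sum.elim_inr]
          ring)
    funext c
    rcases c with (c | t) | t
    · exact congrFun h1 (Sum.inl c)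
    · fin_cases t
      · exact hc0
      · exact congrFun h2 0
      · exact congrFun h2 1
    · exact congrFun h1 (Sum.inr t)
  have hu : IsUnit A.det := isUnit_iff_ne_zero.2 hdet
  obtain ⟨L, hL⟩ : ∃ L : Fin 3 → Fin m ⊕ Fin (s + 1) → K, L = fun r ρ =>
    A⁻¹ (Sum.inl (Sum.inr r)) (e0.symm ρ) := ⟨_, rfl⟩
  have hsum : ∀ (r : Fin 3) (F : Fin m ⊕ Fin (s + 1) → K),
      ∑ i, A⁻¹ (Sum.inl (Sum.inr r)) i * F (e0 i) = ∑ ρ, L r ρ * F ρ := by
    intro r F
    rw [← Equiv.sum_comp e0]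
    simp only [hL, Equiv.symm_apply_apply]
  have hLA : ∀ (r : Fin 3) (c : (T ⊕ Fin 3) ⊕ Fin 2), ∑ ρ, L r ρ * colM C G ρ c =
      (1 : Matrix ((T ⊕ Fin 3) ⊕ Fin 2) ((T ⊕ Fin 3) ⊕ Fin 2) K) (Sum.inl (Sum.inr r)) c := by
    intro r c
    rw [← hsum r fun ρ => colM C G ρ c, ← Matrix.nonsing_inv_mul _ hu, Matrix.mul_apply, hA]
    rfl
  have hold : ∀ (r : Fin 3) (v : T ⊕ Fin 2 → K), ∑ ρ, L r ρ * C.mulVec v ρ = 0 := by
    intro r v
    simp only [Matrix.mulVec, dotProduct, Finset.mul_sum]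
    rw [Finset.sum_comm]
    refine Finset.sum_eq_zero fun c _ => ?_
    have h1 : ∑ ρ, L r ρ * C ρ c = 0 := by
      rcases c with c | c
      · have h2 := hLA r (Sum.inl (Sum.inl c))
        rw [Matrix.one_apply, if_neg (by simp)] at h2
        exact h2
      · have h2 := hLA r (Sum.inr c)
        rw [Matrix.one_apply, if_neg (by simp)] at h2
        exact h2
    have h2 : ∑ ρ, L r ρ * (C ρ c * v c) = (∑ ρ, L r ρ * C ρ c) * v c := by
      rw [Finset.sum_mul]
      refine Finset.sum_congr rfl fun ρ _ => ?_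
      ring
    rw [h2, h1, zero_mul]
  have hnew : ∀ r t : Fin 3, ∑ ρ, L r ρ * G t ρ = if r = t then 1 else 0 := by
    intro r t
    have h2 := hLA r (Sum.inl (Sum.inr t))
    rw [Matrix.one_apply] at h2
    simp only [Sum.inl.injEq, Sum.inr.injEq] at h2
    exact h2
  have hlast : ∀ r : Fin 3, L r (Sum.inr (Fin.last s)) = if r = 0 then 1 else 0 := by
    intro r
    have h1 := hnew r 0
    simp only [hG, Matrix.cons_val_zero] at h1
    rw [← h1, Finset.sum_eq_single (Sum.inr (Fin.last s))]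
    · rw [Pi.single_eq_same, mul_one]
    · intro ρ _ hρ
      rw [Pi.single_eq_of_ne hρ, mul_zero]
    · intro h
      exact absurd (Finset.mem_univ _) h
  have hL0 : ∀ ρ, L 0 ρ = if Sum.inr (Fin.last s) = ρ then 1 else 0 := by
    intro ρ
    have h1 : ∀ c, A (e0.symm (Sum.inr (Fin.last s))) c =
        if c = Sum.inl (Sum.inr 0) then 1 else 0 := by
      intro c
      rw [hA, Matrix.submatrix_apply, Equiv.apply_symm_apply, id]
      rcases c with (c | t) | t
      · rw [if_neg (by simp)]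
        exact hC _
      · show G t (Sum.inr (Fin.last s)) = _
        rw [hG]
        fin_cases t
        · simp
        · simp
        · simp
      · rw [if_neg (by simp)]
        exact hC _
    have h2 : (A * A⁻¹) (e0.symm (Sum.inr (Fin.last s))) (e0.symm ρ) = L 0 ρ := by
      rw [Matrix.mul_apply]
      simp only [h1, ite_mul, one_mul, zero_mul]
      rw [Finset.sum_ite_eq', if_pos (Finset.mem_univ _), hL]
    rw [← h2, Matrix.mul_nonsing_inv _ hu, Matrix.one_apply]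
    simp only [Equiv.apply_eq_iff_eq]
  -- values of the functionals on vectors
  have hval : ∀ (r : Fin 3) (w : Fin m → K) (z : K), ∑ ρ, L r ρ *
      Sum.elim w (fun b => if Fin.last s = b then z else 0) ρ =
      ∑ i, L r (Sum.inl i) * w i + L r (Sum.inr (Fin.last s)) * z := by
    intro r w z
    rw [Fintype.sum_sum_type]
    congr 1
    simp only [Sum.elim_inr, mul_ite, mul_zero]
    rw [Finset.sum_ite_eq, if_pos (Finset.mem_univ _)]
  have hval0 : ∀ (r : Fin 3) (w : Fin m → K), ∑ ρ, L r ρ * Sum.elim w (fun _ => 0) ρ =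
      ∑ i, L r (Sum.inl i) * w i := by
    intro r w
    rw [Fintype.sum_sum_type]
    simp only [Sum.elim_inl, Sum.elim_inr, mul_zero, Finset.sum_const_zero, add_zero]
  refine ⟨A.det, fun b i => L b.succ (Sum.inl i), hdet, ?_, ?_, ?_⟩
  · intro b b'
    have h1 := hnew b.succ b'.succ
    have h2 : G b'.succ = Sum.elim (u b') fun _ => 0 := by
      rw [hG]
      fin_cases b'
      · rfl
      · rfl
    rw [h2, hval0] at h1
    rw [h1]
    simp only [Fin.succ_inj]
  · intro b v w hw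
    have h1 := hold b.succ v
    simp only [hw] at h1
    rw [hval0] at h1
    exact h1
  · intro ξ W
    obtain ⟨B, hB⟩ : ∃ B, B = (colM C fun t => Sum.elim (W t) fun b =>
      if Fin.last s = b then ξ t else 0).submatrix e0 id := ⟨_, rfl⟩
    rw [← hB, det_new A B hdet (fun r c => by rw [hA, hB]; rfl) (fun r c => by rw [hA, hB]; rfl)]
    congr 1
    rw [← Matrix.det_transpose]
    congr 1
    ext t r
    rw [Matrix.transpose_apply, Matrix.of_apply, Matrix.of_apply]
    have h1 : ∑ i, A⁻¹ (Sum.inl (Sum.inr r)) i * B i (Sum.inl (Sum.inr t)) =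
        ∑ ρ, L r ρ * Sum.elim (W t) (fun b => if Fin.last s = b then ξ t else 0) ρ := by
      rw [← hsum, hB]
      rfl
    rw [h1, hval, hlast]
    fin_cases r
    · simp [hL0]
    · simp
    · simp

end Abs

end Pool.Agent.H77.BO
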