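import Pool.Agent.H17.BO.TargetsA
import Pool.Agent.H90.VG.NB
import Pool.Agent.H77.BO.NB3a

/-!
# MP_70ba79_ag, board `bo_modules`: module NB3 (choice of columns, third case)
-/

set_option autoImplicit false

namespace Pool.Agent.H77.BO

open MvPolynomial SC Pool.Agent.H27.LV Pool.Agent.H17.VG Pool.Agent.H17.BO
open Pool.Agent.H90.VG (wv Ut_PQ exists_extend)

section Old

variable {R k K : Type} [Field R] [Field k] [Field K] [Algebra k K] [Algebra R K] {n s : ℕ}

/-- the old columns -/
noncomputable def oldC (D : Derivation k K K) (x : Fin (n + 1) → K)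
    (τ : Fin (n + 1) → Fin s → Op R K n) (T : Finset (Fin (n + 1) × Fin s)) :
    Matrix (Fin (n + 1) ⊕ Fin (s + 1)) (T ⊕ Fin 2) K := Matrix.of fun r c => match c with
  | Sum.inl c => Sum.elim (fun a => opV (τ c.1.1 c.1.2) x a)
      (fun b => if c.1.2.castSucc = b then x c.1.1 else 0) r
  | Sum.inr t => Sum.elim (fun a => if t = 0 then D (x a) else x a) (fun _ => 0) r

variable (D : Derivation k K K) (x : Fin (n + 1) → K)
    (τ : Fin (n + 1) → Fin s → Op R K n) (T : Finset (Fin (n + 1) × Fin s))

theorem oldC_last (c : T ⊕ Fin 2) : oldC D x τ T (Sum.inr (Fin.last s)) c = 0 := by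
  rcases c with c | t
  · show (if c.1.2.castSucc = Fin.last s then x c.1.1 else 0) = 0
    rw [if_neg (Fin.castSucc_lt_last _).ne]
  · rfl

theorem oldC_inr (v : T ⊕ Fin 2 → K) (j : Fin s) :
    (oldC D x τ T).mulVec v (Sum.inr j.castSucc) =
      ∑ t : T, (if t.1.2 = j then x t.1.1 * v (Sum.inl t) else 0) := by
  rw [Matrix.mulVec, dotProduct, Fintype.sum_sum_type, Fin.sum_univ_two]
  simp only [oldC, Matrix.of_apply, Sum.elim_inr, zero_mul, add_zero, Fin.castSucc_inj, ite_mul]

theorem oldC_inrlast (v : T ⊕ Fin 2 → K) :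
    (oldC D x τ T).mulVec v (Sum.inr (Fin.last s)) = 0 := by
  rw [Matrix.mulVec, dotProduct]
  exact Finset.sum_eq_zero fun c _ => by rw [oldC_last, zero_mul]

theorem oldC_inl (v : T ⊕ Fin 2 → K) (a : Fin (n + 1)) :
    (oldC D x τ T).mulVec v (Sum.inl a) =
      ∑ t : T, opV (τ t.1.1 t.1.2) x a * v (Sum.inl t) + (D (x a) * v (Sum.inr 0) +
        x a * v (Sum.inr 1)) := by
  rw [Matrix.mulVec, dotProduct, Fintype.sum_sum_type, Fin.sum_univ_two]
  simp [oldC]

theorem bigM_eq (τq : Fin (n + 1) → Op R K n) (a : Fin 3 → Fin (n + 1)) :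
    bigM D x (Sum.elim (fun c : T => τ c.1.1 c.1.2) (fun t : Fin 3 => τq (a t)))
      (Sum.elim (fun c => c.1.1) (fun t : Fin 3 => a t))
      (Sum.elim (fun c => c.1.2.castSucc) (fun _ => Fin.last s)) =
    colM (oldC D x τ T) fun t => Sum.elim (opV (τq (a t)) x) fun b =>
      if Fin.last s = b then x (a t) else 0 := by
  ext r c
  rcases c with (c | t) | t <;> rcases r with r | r <;> rfl

end Old

theorem pf_NB3 (hOP : T_OP) (hWD : T_WD) : T_NB3 := by
  classical
  intro R k K _ _ _ _ _ _ n e s F D D' x p hp hS hDD hI Q τ hτ hfin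
  have hDx : (fun i => D' (x i)) = (fun i => D (x i)) := funext fun i => hDD _
  -- the space of velocities
  have hUt := Ut_PQ hOP hWD hS x p hp Q τ hτ
  rw [hDx] at hUt
  have hI' : LinearIndependent K ![(fun i => D (x i)), x] := by
    have h1 : LinearIndependent K ![x, fun i => D (x i)] := hI
    rw [LinearIndependent.pair_iff] at h1 ⊢
    intro a b hab
    have := h1 b a ((add_comm _ _).trans hab)
    exact ⟨this.2, this.1⟩
  obtain ⟨T0, hLI, hspan⟩ := exists_extend (wv x p τ) (fun i => D (x i)) x hI'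
  rw [← hUt] at hspan
  have hcard : T0.card + 3 = n := by
    have h1 := finrank_span_eq_card hLI
    rw [hspan] at h1
    have h2 : Fintype.card (T0 ⊕ Fin 2) = T0.card + 2 := by simp
    rw [h2] at h1
    omega
  have hne : ∀ c ∈ T0, c.1 ≠ p := by
    intro c hc hcp
    have h1 := hLI.ne_zero (Sum.inl (⟨c, hc⟩ : T0))
    apply h1
    simp only [Sum.elim_inl]
    unfold wv
    rw [hcp, hp, one_smul, sub_self]
  obtain ⟨P0, hP0⟩ : ∃ P0 : Finset (Fin (n + 1) × Fin s),
    P0 = Finset.univ.image (fun j : Fin s => (p, j)) := ⟨_, rfl⟩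
  obtain ⟨T, hT⟩ : ∃ T : Finset (Fin (n + 1) × Fin s), T = T0 ∪ P0 := ⟨_, rfl⟩
  have hdisj : Disjoint T0 P0 := by
    rw [Finset.disjoint_left]
    intro c hc hc'
    rw [hP0] at hc'
    obtain ⟨j, _, hj⟩ := Finset.mem_image.1 hc'
    exact hne c hc (by rw [← hj])
  have hP0c : P0.card = s := by
    rw [hP0, Finset.card_image_of_injective _ (fun j j' h => (Prod.mk.inj h).2)]
    simp
  have hTcard : Fintype.card T = T0.card + s := by
    rw [Fintype.card_coe, hT, Finset.card_union_of_disjoint hdisj, hP0c]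
  -- sums over `T`
  have hsumT : ∀ (f : Fin (n + 1) × Fin s → K),
      ∑ c : T, f c = ∑ c : T0, f c + ∑ j : Fin s, f (p, j) := by
    intro f
    rw [Finset.sum_coe_sort T f, Finset.sum_coe_sort T0 f, hT, Finset.sum_union hdisj, hP0,
      Finset.sum_image (fun j _ j' _ h => (Prod.mk.inj h).2)]
  have hcardJ : Fintype.card ((T ⊕ Fin 3) ⊕ Fin 2) =
      Fintype.card (Fin (n + 1) ⊕ Fin (s + 1)) := by
    rw [Fintype.card_sum, Fintype.card_sum, Fintype.card_sum, hTcard]
    simp only [Fintype.card_fin]
    omega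
  obtain ⟨e0⟩ : Nonempty ((T ⊕ Fin 3) ⊕ Fin 2 ≃ Fin (n + 1) ⊕ Fin (s + 1)) :=
    ⟨Fintype.equivOfCardEq hcardJ⟩
  -- the complement
  obtain ⟨W, hW⟩ := Submodule.exists_isCompl (Ut R F x (PQ x Q))
  have hWfin : Module.finrank K W = 2 := by
    have h1 := Submodule.finrank_add_eq_of_isCompl hW
    rw [Module.finrank_fin_fun] at h1
    omega
  obtain ⟨bW⟩ : Nonempty (Module.Basis (Fin 2) K W) :=
    ⟨Module.finBasisOfFinrankEq K W hWfin⟩
  obtain ⟨u, hu⟩ : ∃ u : Fin 2 → Fin (n + 1) → K, u = fun b => (bW b : Fin (n + 1) → K) :=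
    ⟨_, rfl⟩
  have huW : ∀ b, u b ∈ W := fun b => by rw [hu]; exact (bW b).2
  have huli : LinearIndependent K u := by
    rw [hu]
    exact bW.linearIndependent.map' W.subtype (Submodule.ker_subtype W)
  -- independence of the columns
  have hli : ∀ (v : T ⊕ Fin 2 → K) (y : Fin 2 → K),
      (∀ r, (oldC D x τ T).mulVec v r +
        Sum.elim (fun i => y 0 * u 0 i + y 1 * u 1 i) (fun _ => 0) r = 0) →
      v = 0 ∧ y = 0 := by
    intro v y hv
    obtain ⟨f, hf'⟩ : ∃ f : Fin (n + 1) × Fin s → K, f = fun c =>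
      if h : c ∈ T then v (Sum.inl ⟨c, h⟩) else 0 := ⟨_, rfl⟩
    have hf : ∀ t : T, v (Sum.inl t) = f t := by
      intro t
      rw [hf']
      simp only [dif_pos t.2]
    -- the rows of the forms
    have hrj : ∀ j : Fin s, f (p, j) = - ∑ c : T0, if c.1.2 = j then x c.1.1 * f c else 0 := by
      intro j
      have h1 := hv (Sum.inr j.castSucc)
      rw [oldC_inr, Sum.elim_inr, add_zero] at h1
      simp only [hf] at h1
      have h4 := hsumT (fun c : Fin (n + 1) × Fin s => if c.2 = j then x c.1 * f c else 0)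
      rw [h4] at h1
      have h5 : ∑ j' : Fin s, (if j' = j then x p * f (p, j') else 0) = f (p, j) := by
        rw [Finset.sum_ite_eq']
        simp [hp]
      rw [h5] at h1
      linear_combination h1
    -- the rows of the coordinates
    have hra : (∑ c : T0, f c • wv x p τ c + v (Sum.inr 0) • (fun i => D (x i)) +
        v (Sum.inr 1) • x) + (y 0 • u 0 + y 1 • u 1) = 0 := by
      funext a
      have h1 := hv (Sum.inl a)
      rw [oldC_inl, Sum.elim_inl] at h1
      simp only [hf] at h1
      have h4 := hsumT (fun c : Fin (n + 1) × Fin s => opV (τ c.1 c.2) x a * f c)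
      rw [h4] at h1
      have h5 : ∑ j : Fin s, opV (τ p j) x a * f (p, j) =
          - ∑ c : T0, x c.1.1 * f c * opV (τ p c.1.2) x a := by
        have h6 : ∀ j : Fin s, opV (τ p j) x a * f (p, j)
            = - ∑ c : T0, if c.1.2 = j then x c.1.1 * f c * opV (τ p j) x a else 0 := by
          intro j
          rw [hrj, mul_neg, Finset.mul_sum]
          congr 1
          refine Finset.sum_congr rfl fun c _ => ?_
          split_ifs
          · ring
          · ring
        simp only [h6]
        rw [Finset.sum_neg_distrib, Finset.sum_comm]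
        congr 1
        refine Finset.sum_congr rfl fun c _ => ?_
        rw [Finset.sum_ite_eq]
        simp
      rw [h5] at h1
      simp only [Pi.add_apply, Finset.sum_apply, Pi.smul_apply, smul_eq_mul, Pi.zero_apply]
      have h7 : ∑ c : T0, f c * wv x p τ c a = ∑ c : T0, opV (τ c.1.1 c.1.2) x a * f c -
          ∑ c : T0, x c.1.1 * f c * opV (τ p c.1.2) x a := by
        rw [← Finset.sum_sub_distrib]
        refine Finset.sum_congr rfl fun c _ => ?_
        simp only [wv, Pi.sub_apply, Pi.smul_apply, smul_eq_mul]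
        ring
      rw [h7]
      linear_combination h1
    have hin : ∑ c : T0, f c • wv x p τ c + v (Sum.inr 0) • (fun i => D (x i)) +
        v (Sum.inr 1) • x ∈ Ut R F x (PQ x Q) := by
      rw [hUt]
      apply Submodule.add_mem
      · apply Submodule.add_mem
        · exact Submodule.sum_mem _ fun c _ => Submodule.smul_mem _ _
            (Submodule.subset_span (Or.inl ⟨_, rfl⟩))
        · exact Submodule.smul_mem _ _ (Submodule.subset_span (Or.inr (Or.inl rfl)))
      · exact Submodule.smul_mem _ _ (Submodule.subset_span (Or.inr (Or.inr rfl)))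
    have hinW : y 0 • u 0 + y 1 • u 1 ∈ W :=
      Submodule.add_mem _ (Submodule.smul_mem _ _ (huW 0)) (Submodule.smul_mem _ _ (huW 1))
    have hz : y 0 • u 0 + y 1 • u 1 = 0 := by
      have h1 : y 0 • u 0 + y 1 • u 1 ∈ Ut R F x (PQ x Q) := by
        rw [← neg_eq_of_add_eq_zero_right hra]
        exact Submodule.neg_mem _ hin
      exact Submodule.disjoint_def.1 hW.disjoint _ h1 hinW
    have hy : y = 0 := by
      rw [Fintype.linearIndependent_iff] at huli
      funext b
      exact huli y (by rw [Fin.sum_univ_two]; exact hz) b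
    rw [hz, add_zero] at hra
    -- linear independence
    rw [Fintype.linearIndependent_iff] at hLI
    have h1 := hLI (Sum.elim (fun c : T0 => f c) ![v (Sum.inr 0), v (Sum.inr 1)]) (by
      rw [Fintype.sum_sum_type, Fin.sum_univ_two]
      simp only [Sum.elim_inl, Sum.elim_inr, Matrix.cons_val_zero, Matrix.cons_val_one]
      rw [← add_assoc]
      exact hra)
    have hfT0 : ∀ c ∈ T0, f c = 0 := fun c hc => h1 (Sum.inl ⟨c, hc⟩)
    have hfp : ∀ j, f (p, j) = 0 := by
      intro j
      rw [hrj, Finset.sum_eq_zero, neg_zero]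
      intro c _
      rw [hfT0 c c.2]
      simp
    refine ⟨?_, hy⟩
    funext c
    rcases c with c | t
    · rw [hf, Pi.zero_apply]
      have hc2 : c.1 ∈ T0 ∪ P0 := hT ▸ c.2
      rcases Finset.mem_union.1 hc2 with hc | hc
      · exact hfT0 c hc
      · rw [hP0] at hc
        obtain ⟨j, _, hj⟩ := Finset.mem_image.1 hc
        rw [← hj]
        exact hfp j
    · have h2 := h1 (Sum.inr t)
      fin_cases t
      · exact h2
      · exact h2
  obtain ⟨σ, ν, hσ, hdual, hann, hdet⟩ := abs_det e0 (oldC D x τ T) (oldC_last D x τ T) u hli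
  have hnD : ∀ b, ∑ i, ν b i * D (x i) = 0 := by
    intro b
    refine hann b (Pi.single (Sum.inr 0) 1) (fun i => D (x i)) fun r => ?_
    rw [Matrix.mulVec_single_one]
    rcases r with i | j <;> rfl
  have hnx : ∀ b, ∑ i, ν b i * x i = 0 := by
    intro b
    refine hann b (Pi.single (Sum.inr 1) 1) x fun r => ?_
    rw [Matrix.mulVec_single_one]
    rcases r with i | j <;> rfl
  have hnw : ∀ b, ∀ c ∈ T0, ∑ i, ν b i * wv x p τ c i = 0 := by
    intro b c hc
    have hcT : c ∈ T := by rw [hT]; exact Finset.mem_union_left _ hc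
    have hpT : (p, c.2) ∈ T := by
      rw [hT, hP0]
      exact Finset.mem_union_right _ (Finset.mem_image_of_mem _ (Finset.mem_univ _))
    refine hann b (Pi.single (Sum.inl ⟨c, hcT⟩) 1 - x c.1 • Pi.single (Sum.inl ⟨_, hpT⟩) 1)
      (wv x p τ c) fun r => ?_
    rw [Matrix.mulVec_sub, Matrix.mulVec_smul, Matrix.mulVec_single_one,
      Matrix.mulVec_single_one]
    rcases r with i | j
    · rfl
    · show (if c.2.castSucc = j then x c.1 else 0) -
        x c.1 • (if c.2.castSucc = j then x p else 0) = 0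
      rw [hp]
      split_ifs
      · rw [smul_eq_mul, mul_one, sub_self]
      · rw [smul_zero, sub_zero]
  refine ⟨T, e0, σ, ν, hσ, ?_, ?_, hnx, hnD, ?_⟩
  · rw [Fintype.linearIndependent_iff]
    intro g hg b
    have h1 : ∑ i, (∑ b', g b' • ν b') i * u b i = g b := by
      simp only [Finset.sum_apply, Pi.smul_apply, smul_eq_mul, Finset.sum_mul]
      rw [Finset.sum_comm]
      have h2 : ∀ b', ∑ i, g b' * ν b' i * u b i = if b' = b then g b' else 0 := by
        intro b'
        have h3 : ∑ i, g b' * ν b' i * u b i = g b' * ∑ i, ν b' i * u b i := by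
          rw [Finset.mul_sum]
          refine Finset.sum_congr rfl fun i _ => ?_
          ring
        rw [h3, hdual]
        split_ifs
        · rw [mul_one]
        · rw [mul_zero]
      simp only [h2]
      rw [Finset.sum_ite_eq', if_pos (Finset.mem_univ _)]
    rw [← h1, hg]
    simp
  · intro b w hw
    rw [← hspan] at hw
    induction hw using Submodule.span_induction with
    | mem w hw =>
      obtain ⟨c, rfl⟩ := hw
      rcases c with c | t
      · exact hnw b c c.2
      · fin_cases t
        · exact hnD b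
        · exact hnx b
    | zero => simp
    | add w w' _ _ h h' =>
      simp only [Pi.add_apply, mul_add]
      rw [Finset.sum_add_distrib, h, h', add_zero]
    | smul a w _ h =>
      have h2 : ∑ i, ν b i * (a • w) i = a * ∑ i, ν b i * w i := by
        rw [Finset.mul_sum]
        refine Finset.sum_congr rfl fun i _ => ?_
        rw [Pi.smul_apply, smul_eq_mul]
        ring
      rw [h2, h, mul_zero]
  · intro τq a
    rw [bigM_eq]
    exact hdet (fun t => x (a t)) fun t => opV (τq (a t)) x

end Pool.Agent.H77.BO
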